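import Pool.Agent.Helper34.PU.Goals

set_option autoImplicit false

open Finset Function
open scoped Classical

namespace Pool.Agent.Helper49.PU

open Pool.Agent.Helper34.PU

lemma In_nonneg {V : Type} (R : RF V) (z : V) : 0 ≤ R.In z := by
  unfold RF.In
  refine Finset.sum_nonneg fun ω _ => ?_
  split_ifs
  · exact R.w_nonneg ω
  · exact le_rfl

lemma Cut_nonneg {V : Type} (R : RF V) (z : V) : 0 ≤ R.Cut z := by
  unfold RF.Cut
  refine Finset.sum_nonneg fun ω _ => ?_
  split_ifs
  · exact R.w_nonneg ω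
  · exact le_rfl

lemma nbw_nonneg {V : Type} [Fintype V] (H : SimpleGraph V) :
    ∀ (j : ℕ) (p u z : V), 0 ≤ nbw H j p u z := by
  intro j
  induction j with
  | zero =>
    intro p u z
    unfold nbw
    split_ifs <;> norm_num
  | succ j ih =>
    intro p u z
    unfold nbw
    exact Finset.sum_nonneg fun y _ => ih u y z

lemma core_mono {V : Type} {H : SimpleGraph V} {θ : ℝ} {h : Finset V} {ℓ ℓ' : ℕ} {R : RF V}
    (hR : Core H θ h ℓ R) (hl : ℓ ≤ ℓ') : Core H θ h ℓ' R :=
  ⟨hR.nodup, hR.disj, hR.up, hR.lo, hR.link, fun ω => (hR.len ω).trans hl⟩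

/-- add a cut vertex -/
noncomputable def addCut {V : Type} (E : RF V) (u : V) : RF V :=
  { Ω := E.Ω, w := E.w, w_nonneg := E.w_nonneg, w_sum := E.w_sum, F := E.F,
    Y := fun ω => insert u (E.Y ω) }

lemma addCut_In {V : Type} (E : RF V) (u z : V) : (addCut E u).In z = E.In z := rfl

lemma addCut_Bef {V : Type} (E : RF V) (u a b : V) : (addCut E u).Bef a b = E.Bef a b := rfl

lemma addCut_le {V : Type} (E : RF V) (u z : V) : E.Cut z ≤ (addCut E u).Cut z := by
  show (∑ ω, if z ∈ E.Y ω then E.w ω else 0) ≤ ∑ ω, if z ∈ insert u (E.Y ω) then E.w ω else 0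
  refine Finset.sum_le_sum fun ω _ => ?_
  by_cases hz : z ∈ E.Y ω
  · rw [if_pos hz, if_pos (Finset.mem_insert_of_mem hz)]
  · rw [if_neg hz]
    split_ifs
    · exact E.w_nonneg ω
    · exact le_rfl

lemma addCut_self {V : Type} (E : RF V) (u : V) : (addCut E u).Cut u = 1 := by
  show (∑ ω, if u ∈ insert u (E.Y ω) then E.w ω else 0) = 1
  rw [← E.w_sum]
  refine Finset.sum_congr rfl fun ω _ => ?_
  rw [if_pos (Finset.mem_insert_self _ _)]

lemma addCut_ne {V : Type} (E : RF V) (u z : V) (hz : z ≠ u) :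
    (addCut E u).Cut z = E.Cut z := by
  show (∑ ω, if z ∈ insert u (E.Y ω) then E.w ω else 0) = ∑ ω, if z ∈ E.Y ω then E.w ω else 0
  refine Finset.sum_congr rfl fun ω _ => ?_
  by_cases h : z ∈ E.Y ω
  · rw [if_pos h, if_pos (Finset.mem_insert_of_mem h)]
  · rw [if_neg h, if_neg]
    rw [Finset.mem_insert]
    rintro (h1 | h1)
    · exact hz h1
    · exact h h1

theorem arm (h1 : LL1Stmt) (h2 : StepStmt) : ArmStmt := by
  intro V _ H Δ θ hΔ hθ hΔθ D ρ hρ0 hρ h0 Ex ys ℓ hEx j
  induction j with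
  | zero =>
    intro h p u hh0 hp hu hadj
    obtain ⟨hC, hIn, hD, hCut⟩ := hEx h hh0
    refine ⟨addCut (Ex h) u, ⟨hC.nodup, hC.disj, hC.up, ?_, hC.link, hC.len⟩, hIn, hD, ?_, ?_⟩
    · intro a b ha hb hab
      rw [addCut_In, addCut_Bef, addCut_Bef]
      have e1 := hC.lo a b ha hb hab
      have e2 := addCut_le (Ex h) u a
      have e3 : θ * ((Ex h).In a - (Ex h).Bef b a - (addCut (Ex h) u).Cut a) ≤
          θ * ((Ex h).In a - (Ex h).Bef b a - (Ex h).Cut a) :=
        mul_le_mul_of_nonneg_left (by linarith) hθ.le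
      linarith
    · intro b hb _
      rw [addCut_self, sub_self, mul_zero, addCut_In]
      exact In_nonneg _ _
    · intro z
      rw [pow_zero, one_mul]
      by_cases hz : z = u
      · subst hz
        rw [addCut_self]
        have e1 : nbw H 0 p z z = 1 := by
          unfold nbw; rw [if_pos rfl]
        rw [e1]
        have := (Cut_nonneg (Ex h) z).trans (hCut z)
        linarith
      · rw [addCut_ne _ _ _ hz]
        have e1 := nbw_nonneg H 0 p u z
        have := hCut z
        linarith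
  | succ j ih =>
    intro h p u hh0 hp hu hadj
    obtain ⟨hC, hIn, hD, hCut⟩ := hEx h hh0
    set Z : Finset V := nbr H u \ h with hZ
    have hZmem : ∀ y, y ∈ Z ↔ H.Adj u y ∧ y ∉ h := by
      intro y
      rw [hZ, Finset.mem_sdiff]
      simp [nbr]
    have hcard : Z.card + 1 ≤ Δ := by
      have hpZ : p ∉ Z := fun hc => ((hZmem p).1 hc).2 hp
      have hsub : insert p Z ⊆ nbr H u := by
        intro y hy
        rw [Finset.mem_insert] at hy
        rcases hy with rfl | hy
        · simp [nbr]; exact hadj.symm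
        · exact (Finset.mem_sdiff.1 hy).1
      have := Finset.card_le_card hsub
      rw [Finset.card_insert_of_notMem hpZ] at this
      exact this.trans (hΔ u)
    have hZθ : (Z.card : ℝ) * θ ≤ 1 := by
      have : (Z.card : ℝ) ≤ Δ - 1 := by
        have : (Z.card : ℝ) + 1 ≤ Δ := by exact_mod_cast hcard
        linarith
      exact (mul_le_mul_of_nonneg_right this hθ.le).trans hΔθ
    have hR : ∀ y, ∃ M : RF V, y ∈ Z → (Core H θ (insert y h) (ℓ + j) M ∧
        (∀ z, z ∉ insert y h → M.In z ≤ θ) ∧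
        (∀ z ∈ D, z ∉ insert y h → ρ ≤ M.In z) ∧
        (∀ b, b ∉ insert y h → H.Adj y b → θ * (1 - M.Cut y) ≤ M.In b) ∧
        (∀ z, M.Cut z ≤ θ ^ j * nbw H j u y z + ys z)) := by
      intro y
      by_cases hy : y ∈ Z
      · obtain ⟨M, hM⟩ := ih (insert y h) u y (hh0.trans (Finset.subset_insert _ _))
          (Finset.mem_insert_of_mem hu) (Finset.mem_insert_self _ _) ((hZmem y).1 hy).1
        exact ⟨M, fun _ => hM⟩
      · exact ⟨Ex h, fun hc => absurd hc hy⟩
    choose R hR using hR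
    have hnotin : ∀ y ∈ Z, ∀ z, z ∉ h → z ≠ y → z ∉ insert y h := by
      intro y _ z hz hzy hc
      rcases Finset.mem_insert.1 hc with h3 | h3
      · exact hzy h3
      · exact hz h3
    obtain ⟨c, hc, hceq⟩ := h1 V Z θ (fun z => (Ex h).In z) (fun y z => (R y).In z) hθ hZθ
      (fun z hz => ⟨In_nonneg _ _, hIn z ((hZmem z).1 hz).2⟩)
      (fun y hy z hz hyz => ⟨In_nonneg _ _,
        (hR y hy).2.1 z (hnotin y hy z ((hZmem z).1 hz).2 (Ne.symm hyz))⟩)
    have hcsum : ∑ y ∈ Z, c y ≤ 1 := by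
      refine le_trans ?_ hZθ
      have := Finset.sum_le_card_nsmul Z c θ (fun y hy => (hc y hy).2)
      rwa [nsmul_eq_mul] at this
    obtain ⟨M, hM, hMIn, hMCut⟩ := h2 V H θ h Z (ℓ + j) c R (Ex h) hθ.le
      (by
        rw [Finset.disjoint_left]
        intro a ha hZa
        exact ((hZmem a).1 hZa).2 ha)
      (fun y hy => ⟨u, hu, ((hZmem y).1 hy).1⟩)
      (fun y hy => (hc y hy).1) hcsum
      (fun y hy => (hR y hy).1)
      (fun y hy => (hR y hy).2.1)
      (fun y hy => (hR y hy).2.2.2.1)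
      (core_mono hC (by omega))
    have hMZ : ∀ z ∈ Z, M.In z = θ := by
      intro z hz
      rw [hMIn z ((hZmem z).1 hz).2, if_pos hz]
      exact hceq z hz
    have hMnZ : ∀ z, z ∉ h → z ∉ Z → M.In z = ∑ y ∈ Z, c y * (R y).In z
        + (1 - ∑ y ∈ Z, c y) * (Ex h).In z := by
      intro z hz hzZ
      rw [hMIn z hz, if_neg hzZ, Finset.erase_eq_of_notMem hzZ, zero_add]
    refine ⟨M, hM, ?_, ?_, ?_, ?_⟩
    · intro z hz
      by_cases hzZ : z ∈ Z
      · rw [hMZ z hzZ]
      · rw [hMnZ z hz hzZ]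
        have e1 : ∑ y ∈ Z, c y * (R y).In z ≤ ∑ y ∈ Z, c y * θ := by
          refine Finset.sum_le_sum fun y hy => ?_
          refine mul_le_mul_of_nonneg_left ?_ (hc y hy).1
          exact (hR y hy).2.1 z (hnotin y hy z hz (fun hzy => hzZ (hzy ▸ hy)))
        have e2 : (1 - ∑ y ∈ Z, c y) * (Ex h).In z ≤ (1 - ∑ y ∈ Z, c y) * θ :=
          mul_le_mul_of_nonneg_left (hIn z hz) (by linarith)
        rw [← Finset.sum_mul] at e1
        nlinarith
    · intro z hzD hz
      by_cases hzZ : z ∈ Z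
      · rw [hMZ z hzZ]; exact hρ
      · rw [hMnZ z hz hzZ]
        have e1 : ∑ y ∈ Z, c y * ρ ≤ ∑ y ∈ Z, c y * (R y).In z := by
          refine Finset.sum_le_sum fun y hy => ?_
          refine mul_le_mul_of_nonneg_left ?_ (hc y hy).1
          exact (hR y hy).2.2.1 z hzD (hnotin y hy z hz (fun hzy => hzZ (hzy ▸ hy)))
        have e2 : (1 - ∑ y ∈ Z, c y) * ρ ≤ (1 - ∑ y ∈ Z, c y) * (Ex h).In z :=
          mul_le_mul_of_nonneg_left (hD z hzD hz) (by linarith)
        rw [← Finset.sum_mul] at e1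
        nlinarith
    · intro b hb hub
      rw [hMZ b ((hZmem b).2 ⟨hub, hb⟩)]
      have := Cut_nonneg M u
      nlinarith
    · intro z
      rw [hMCut z]
      have e1 : ∑ y ∈ Z, c y * (R y).Cut z ≤
          ∑ y ∈ Z, (θ ^ (j + 1) * nbw H j u y z + c y * ys z) := by
        refine Finset.sum_le_sum fun y hy => ?_
        have f1 : c y * (R y).Cut z ≤ c y * (θ ^ j * nbw H j u y z + ys z) :=
          mul_le_mul_of_nonneg_left ((hR y hy).2.2.2.2 z) (hc y hy).1
        have f2 : 0 ≤ θ ^ j * nbw H j u y z :=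
          mul_nonneg (pow_nonneg hθ.le _) (nbw_nonneg H j u y z)
        have f3 : c y * (θ ^ j * nbw H j u y z) ≤ θ * (θ ^ j * nbw H j u y z) :=
          mul_le_mul_of_nonneg_right (hc y hy).2 f2
        have f4 : θ ^ (j + 1) * nbw H j u y z = θ * (θ ^ j * nbw H j u y z) := by ring
        rw [f4]
        linarith
      have e2 : (1 - ∑ y ∈ Z, c y) * (Ex h).Cut z ≤ (1 - ∑ y ∈ Z, c y) * ys z :=
        mul_le_mul_of_nonneg_left (hCut z) (by linarith)
      rw [Finset.sum_add_distrib, ← Finset.mul_sum, ← Finset.sum_mul] at e1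
      have e3 : ∑ y ∈ Z, nbw H j u y z ≤ nbw H (j + 1) p u z := by
        have : nbw H (j + 1) p u z = ∑ y ∈ (nbr H u).filter (fun y => y ≠ p), nbw H j u y z := by
          rw [nbw]
        rw [this]
        refine Finset.sum_le_sum_of_subset_of_nonneg ?_ (fun y _ _ => nbw_nonneg H j u y z)
        intro y hy
        rw [Finset.mem_filter]
        refine ⟨(Finset.mem_sdiff.1 hy).1, ?_⟩
        rintro rfl
        exact ((hZmem _).1 hy).2 hp
      have e4 : θ ^ (j + 1) * ∑ y ∈ Z, nbw H j u y z ≤ θ ^ (j + 1) * nbw H (j + 1) p u z :=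
        mul_le_mul_of_nonneg_left e3 (pow_nonneg hθ.le _)
      linarith

end Pool.Agent.Helper49.PU
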