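import Pool.Agent.Helper34.PU.Goals

set_option autoImplicit false

open Finset Function
open scoped Classical

namespace Pool.Agent.Helper49.PU

open Pool.Agent.Helper34.PU

lemma avg_mono {α : Type} (A : Finset α) (f g : α → ℝ) (h : ∀ i ∈ A, f i ≤ g i) :
    avg A f ≤ avg A g := by
  unfold avg
  exact div_le_div_of_nonneg_right (Finset.sum_le_sum h) (Nat.cast_nonneg _)

lemma avg_congr {α : Type} (A : Finset α) (f g : α → ℝ) (h : ∀ i ∈ A, f i = g i) :
    avg A f = avg A g := by
  unfold avg
  rw [Finset.sum_congr rfl h]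

lemma avg_sum {α ι : Type} (A : Finset α) (S : Finset ι) (f : ι → α → ℝ) :
    ∑ l ∈ S, avg A (f l) = avg A (fun i => ∑ l ∈ S, f l i) := by
  unfold avg
  rw [← Finset.sum_div, Finset.sum_comm]

lemma avg_comm {α β : Type} (A : Finset α) (B : Finset β) (f : α → β → ℝ) :
    avg A (fun i => avg B (fun j => f i j)) = avg B (fun j => avg A (fun i => f i j)) := by
  unfold avg
  rw [← Finset.sum_div, ← Finset.sum_div, Finset.sum_comm, div_right_comm]

lemma avg_mul {α : Type} (A : Finset α) (f : α → ℝ) (c : ℝ) :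
    avg A (fun i => c * f i) = c * avg A f := by
  unfold avg
  rw [← Finset.mul_sum, mul_div_assoc]

lemma avg_mul' {α : Type} (A : Finset α) (f : α → ℝ) (c : ℝ) :
    avg A (fun i => f i * c) = avg A f * c := by
  unfold avg
  rw [← Finset.sum_mul, div_mul_eq_mul_div]

lemma avg_add_const_le {α : Type} (A : Finset α) (f : α → ℝ) (c : ℝ) (hc : 0 ≤ c) :
    avg A (fun i => f i + c) ≤ avg A f + c := by
  unfold avg
  rw [Finset.sum_add_distrib, Finset.sum_const, nsmul_eq_mul, add_div]
  have : (A.card : ℝ) * c / A.card ≤ c := by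
    rcases Nat.eq_zero_or_pos A.card with h | h
    · rw [h]; simpa using hc
    · have : (0 : ℝ) < A.card := by exact_mod_cast h
      rw [mul_comm, mul_div_assoc, div_self this.ne', mul_one]
  linarith

lemma avg_sq {α : Type} (A : Finset α) (f : α → ℝ) :
    (avg A f) ^ 2 = avg A (fun i => avg A (fun i' => f i * f i')) := by
  have h : ∀ i ∈ A, avg A (fun i' => f i * f i') = f i * avg A f := fun i _ => avg_mul A f (f i)
  rw [avg_congr A _ _ h, avg_mul', sq]

lemma box4_symm {α : Type} (A B : Finset α) (F : α → α → ℝ) :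
    box4 A B F = avg B (fun j => avg B (fun j' => (avg A (fun i => F i j * F i j')) ^ 2)) := by
  have h1 : box4 A B F = avg A (fun i => avg A (fun i' => avg B (fun j => avg B (fun j' =>
      (F i j * F i' j) * (F i j' * F i' j'))))) := by
    unfold box4
    refine avg_congr A _ _ fun i _ => avg_congr A _ _ fun i' _ => ?_
    exact avg_sq B (fun j => F i j * F i' j)
  have h2 : avg B (fun j => avg B (fun j' => (avg A (fun i => F i j * F i j')) ^ 2)) =
      avg B (fun j => avg B (fun j' => avg A (fun i => avg A (fun i' =>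
        (F i j * F i j') * (F i' j * F i' j'))))) := by
    refine avg_congr B _ _ fun j _ => avg_congr B _ _ fun j' _ => ?_
    exact avg_sq A (fun i => F i j * F i j')
  rw [h1, h2]
  -- swap
  have h3 : avg A (fun i => avg A (fun i' => avg B (fun j => avg B (fun j' =>
      (F i j * F i' j) * (F i j' * F i' j'))))) =
      avg A (fun i => avg B (fun j => avg A (fun i' => avg B (fun j' =>
      (F i j * F i' j) * (F i j' * F i' j'))))) :=
    avg_congr A _ _ fun i _ => avg_comm A B _
  rw [h3, avg_comm A B]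
  refine avg_congr B _ _ fun j _ => ?_
  have h4 : avg A (fun i => avg A (fun i' => avg B (fun j' =>
      (F i j * F i' j) * (F i j' * F i' j')))) =
      avg A (fun i => avg B (fun j' => avg A (fun i' =>
      (F i j * F i' j) * (F i j' * F i' j')))) :=
    avg_congr A _ _ fun i _ => avg_comm A B _
  rw [h4, avg_comm A B]
  refine avg_congr B _ _ fun j' _ => avg_congr A _ _ fun i _ => avg_congr A _ _ fun i' _ => ?_
  ring

/-- mixing -/
def mix {T D : ℕ} (J : Finset (Fin T)) (φ ψ : Pt T D) : Pt T D :=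
  fun t => if t ∈ J then ψ t else φ t

lemma indep {T D : ℕ} (U J J' : Finset (Fin T)) (a : Pt T D) (hUJ' : Disjoint U J')
    (hJJ' : Disjoint J J') (G : Pt T D → Pt T D → ℝ)
    (hG1 : ∀ φ φ' ψ, (∀ t ∈ U ∪ J, φ t = φ' t) → G φ ψ = G φ' ψ)
    (hG2 : ∀ φ ψ ψ', (∀ t ∈ U ∪ J', ψ t = ψ' t) → G φ ψ = G φ ψ') :
    avg (blk U a) (fun φ => G φ φ) = avg (blk U a) (fun φ => avg (blk U a) (fun ψ => G φ ψ)) := by
  have hmem : ∀ φ : Pt T D, φ ∈ blk U a ↔ ∀ t ∈ U, φ t = a t := by
    intro φ; simp [blk]
  have key : ∑ p ∈ blk U a ×ˢ blk U a, G p.1 p.2 = ∑ p ∈ blk U a ×ˢ blk U a, G p.1 p.1 := by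
    refine Finset.sum_bij' (fun p _ => (mix J' p.1 p.2, mix J' p.2 p.1))
      (fun p _ => (mix J' p.1 p.2, mix J' p.2 p.1)) ?_ ?_ ?_ ?_ ?_
    · intro p hp
      rw [Finset.mem_product, hmem, hmem] at hp ⊢
      constructor
      · intro t ht
        simp only [mix]
        split_ifs
        · exact hp.2 t ht
        · exact hp.1 t ht
      · intro t ht
        simp only [mix]
        split_ifs
        · exact hp.1 t ht
        · exact hp.2 t ht
    · intro p hp
      rw [Finset.mem_product, hmem, hmem] at hp ⊢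
      constructor
      · intro t ht
        simp only [mix]
        split_ifs
        · exact hp.2 t ht
        · exact hp.1 t ht
      · intro t ht
        simp only [mix]
        split_ifs
        · exact hp.1 t ht
        · exact hp.2 t ht
    · intro p _
      ext t <;> simp only [mix] <;> split_ifs <;> rfl
    · intro p _
      ext t <;> simp only [mix] <;> split_ifs <;> rfl
    · intro p hp
      rw [Finset.mem_product, hmem, hmem] at hp
      have e1 : G p.1 p.2 = G (mix J' p.1 p.2) p.2 := by
        apply hG1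
        intro t ht
        have : t ∉ J' := by
          rcases Finset.mem_union.1 ht with h | h
          · exact Finset.disjoint_left.1 hUJ' h
          · exact Finset.disjoint_left.1 hJJ' h
        simp only [mix, if_neg this]
      have e2 : G (mix J' p.1 p.2) p.2 = G (mix J' p.1 p.2) (mix J' p.1 p.2) := by
        apply hG2
        intro t ht
        simp only [mix]
        split_ifs with h
        · rfl
        · have : t ∈ U := by
            rcases Finset.mem_union.1 ht with h' | h'
            · exact h'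
            · exact absurd h' h
          rw [hp.1 t this, hp.2 t this]
      rw [e1, e2]
  rw [Finset.sum_product, Finset.sum_product] at key
  have h0 : (0 : ℝ) < (blk U a).card := by
    have : a ∈ blk U a := (hmem a).2 fun t _ => rfl
    exact_mod_cast Finset.card_pos.2 ⟨a, this⟩
  unfold avg
  rw [← Finset.sum_div, key]
  simp only [Finset.sum_const, nsmul_eq_mul]
  rw [← Finset.mul_sum]
  field_simp

lemma cell_congr {T D N : ℕ} (x : Fin N → Pt T D) (J : Finset (Fin T)) (φ φ' : Pt T D)
    (h : ∀ t ∈ J, φ t = φ' t) : cell x J φ = cell x J φ' := by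
  unfold cell
  refine Finset.filter_congr fun i _ => ?_
  constructor
  · intro hh t ht
    rw [hh t ht, h t ht]
  · intro hh t ht
    rw [hh t ht, h t ht]

theorem cbox (hBes : BesStmt) : CboxStmt := by
  intro β k m T D N η x hm hη0 hη1 hPR hne U a J J' hUJ hUJ' hJ hJ' hJJ' hcJ hcJ' hk hk' F hF
  set γ : ℝ := √(1 / m + 4 * η) + η with hγ
  have hγ0 : 0 ≤ γ := add_nonneg (Real.sqrt_nonneg _) hη0
  have hm0 : (0 : ℝ) ≤ m := Nat.cast_nonneg m
  have hg : ∀ j j', ∀ i, |F i j * F i j'| ≤ 1 := by
    intro j j' i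
    rw [abs_mul]
    exact mul_le_one₀ (hF i j) (abs_nonneg _) (hF i j')
  have hg' : ∀ i i', ∀ j, |F i j * F i' j| ≤ 1 := by
    intro i i' j
    rw [abs_mul]
    exact mul_le_one₀ (hF i j) (abs_nonneg _) (hF i' j)
  -- step 1
  have step1 : ∀ l l', avg (blk U a)
      (fun φ => box4 (cell x (U ∪ J l) φ) (cell x (U ∪ J' l') φ) F) =
      avg (blk U a) (fun ψ => avg (cell x (U ∪ J' l') ψ) (fun j =>
        avg (cell x (U ∪ J' l') ψ) (fun j' => avg (blk U a) (fun φ =>
          (avg (cell x (U ∪ J l) φ) (fun i => F i j * F i j')) ^ 2)))) := by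
    intro l l'
    rw [indep U (J l) (J' l') a (hUJ' l') (hJJ' l l')
      (fun φ ψ => box4 (cell x (U ∪ J l) φ) (cell x (U ∪ J' l') ψ) F)
      (fun φ φ' ψ h => by
        show box4 (cell x (U ∪ J l) φ) _ F = box4 (cell x (U ∪ J l) φ') _ F
        rw [cell_congr x _ φ φ' h])
      (fun φ ψ ψ' h => by
        show box4 _ (cell x (U ∪ J' l') ψ) F = box4 _ (cell x (U ∪ J' l') ψ') F
        rw [cell_congr x _ ψ ψ' h]), avg_comm]
    refine avg_congr _ _ _ fun ψ _ => ?_
    have e1 : avg (blk U a) (fun φ => box4 (cell x (U ∪ J l) φ) (cell x (U ∪ J' l') ψ) F) =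
        avg (blk U a) (fun φ => avg (cell x (U ∪ J' l') ψ) (fun j =>
          avg (cell x (U ∪ J' l') ψ) (fun j' =>
            (avg (cell x (U ∪ J l) φ) (fun i => F i j * F i j')) ^ 2))) :=
      avg_congr _ _ _ fun φ _ => box4_symm _ _ F
    rw [e1, avg_comm]
    refine avg_congr _ _ _ fun j _ => ?_
    rw [avg_comm]
  -- step 2
  have step2 : ∀ l', ∑ l, avg (blk U a)
      (fun φ => box4 (cell x (U ∪ J l) φ) (cell x (U ∪ J' l') φ) F) ≤
      m * (avg (blk U a) (fun ψ => box4 (cell x U a) (cell x (U ∪ J' l') ψ) F) + γ) := by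
    intro l'
    rw [Finset.sum_congr rfl (fun l _ => step1 l l'), avg_sum]
    have e1 : ∀ ψ ∈ blk U a, ∑ l, avg (cell x (U ∪ J' l') ψ) (fun j =>
        avg (cell x (U ∪ J' l') ψ) (fun j' => avg (blk U a) (fun φ =>
          (avg (cell x (U ∪ J l) φ) (fun i => F i j * F i j')) ^ 2))) ≤
        m * box4 (cell x U a) (cell x (U ∪ J' l') ψ) F + m * γ := by
      intro ψ _
      rw [avg_sum]
      have e2 : ∀ j ∈ cell x (U ∪ J' l') ψ, ∑ l, avg (cell x (U ∪ J' l') ψ) (fun j' =>
          avg (blk U a) (fun φ => (avg (cell x (U ∪ J l) φ) (fun i => F i j * F i j')) ^ 2)) ≤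
          m * avg (cell x (U ∪ J' l') ψ) (fun j' =>
            (avg (cell x U a) (fun i => F i j * F i j')) ^ 2) + m * γ := by
        intro j _
        rw [avg_sum]
        have e3 : ∀ j' ∈ cell x (U ∪ J' l') ψ, ∑ l, avg (blk U a) (fun φ =>
            (avg (cell x (U ∪ J l) φ) (fun i => F i j * F i j')) ^ 2) ≤
            m * (avg (cell x U a) (fun i => F i j * F i j')) ^ 2 + m * γ := by
          intro j' _
          have := hBes β k m T D N η x hm hη0 hη1 hPR hne U a J hUJ hJ hcJ hk
            (fun i => F i j * F i j') (hg j j')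
          rw [← mul_add]
          exact this
        refine (avg_mono _ _ _ e3).trans ((avg_add_const_le _ _ _ (mul_nonneg hm0 hγ0)).trans ?_)
        rw [avg_mul]
      refine (avg_mono _ _ _ e2).trans ((avg_add_const_le _ _ _ (mul_nonneg hm0 hγ0)).trans ?_)
      rw [avg_mul, box4_symm]
    refine (avg_mono _ _ _ e1).trans ((avg_add_const_le _ _ _ (mul_nonneg hm0 hγ0)).trans ?_)
    rw [avg_mul]
    exact le_of_eq (mul_add _ _ _).symm
  -- step 3
  have step3 : ∀ l', avg (blk U a) (fun ψ => box4 (cell x U a) (cell x (U ∪ J' l') ψ) F) =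
      avg (cell x U a) (fun i => avg (cell x U a) (fun i' => avg (blk U a) (fun ψ =>
        (avg (cell x (U ∪ J' l') ψ) (fun j => F i j * F i' j)) ^ 2))) := by
    intro l'
    unfold box4
    rw [avg_comm]
    refine avg_congr _ _ _ fun i _ => ?_
    rw [avg_comm]
  have step4 : ∑ l', avg (blk U a) (fun ψ => box4 (cell x U a) (cell x (U ∪ J' l') ψ) F) ≤
      m * box4 (cell x U a) (cell x U a) F + m * γ := by
    rw [Finset.sum_congr rfl (fun l' _ => step3 l'), avg_sum]
    have e2 : ∀ i ∈ cell x U a, ∑ l', avg (cell x U a) (fun i' =>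
        avg (blk U a) (fun ψ => (avg (cell x (U ∪ J' l') ψ) (fun j => F i j * F i' j)) ^ 2)) ≤
        m * avg (cell x U a) (fun i' =>
          (avg (cell x U a) (fun j => F i j * F i' j)) ^ 2) + m * γ := by
      intro i _
      rw [avg_sum]
      have e3 : ∀ i' ∈ cell x U a, ∑ l', avg (blk U a) (fun ψ =>
          (avg (cell x (U ∪ J' l') ψ) (fun j => F i j * F i' j)) ^ 2) ≤
          m * (avg (cell x U a) (fun j => F i j * F i' j)) ^ 2 + m * γ := by
        intro i' _
        have := hBes β k m T D N η x hm hη0 hη1 hPR hne U a J' hUJ' hJ' hcJ' hk'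
          (fun j => F i j * F i' j) (hg' i i')
        rw [← mul_add]
        exact this
      refine (avg_mono _ _ _ e3).trans ((avg_add_const_le _ _ _ (mul_nonneg hm0 hγ0)).trans ?_)
      rw [avg_mul]
    refine (avg_mono _ _ _ e2).trans ((avg_add_const_le _ _ _ (mul_nonneg hm0 hγ0)).trans ?_)
    rw [avg_mul]
    exact le_rfl
  rw [Finset.sum_comm]
  refine (Finset.sum_le_sum fun l' _ => step2 l').trans ?_
  rw [← Finset.mul_sum, Finset.sum_add_distrib, Finset.sum_const, Finset.card_univ,
    Fintype.card_fin, nsmul_eq_mul]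
  have := mul_le_mul_of_nonneg_left (add_le_add_left step4 ((m : ℝ) * γ)) hm0
  refine (this).trans (le_of_eq ?_)
  ring

end Pool.Agent.Helper49.PU
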